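import Pool.Agent.H17.TF.Defs

set_option autoImplicit false

/-!
Contraction of an edge `uv` keeps sparseness if every tight set containing `u` and `v` contains one
fixed common neighbour `w` (`w` is arbitrary if there is no such tight set).

Proof. Let `S' ⊆ A.erase v`, `|S'| ≥ 2`. `mem_ed`: `s(x, y) ∈ ed G S ↔ G.Adj x y ∧ x ∈ S ∧ y ∈ S`.
(a) `u ∉ S'`: `ed (con G u v) S' ⊆ ed G S'` (`x = mv u v x'`, `x ≠ u` gives `x' = x`), and `S' ⊆ A`.
(b) `u ∈ S'`: `S = insert v S' ⊆ A`, `|S| = |S'| + 1 ≥ 3`, and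
`ed (con G u v) S' ⊆ ((ed G S).erase s(u, v)).image (Sym2.map (mv u v))`. If `S` is not tight,
`|ed G S| + 4 ≤ 2 |S|`, so `|ed (con G u v) S'| + 3 ≤ |ed G S| - 1 + 3 ≤ 2 |S| - 2` (`s(u, v) ∈ ed G S`).
If `S` is tight, `w ∈ S` is a common neighbour, `w ≠ u, v`, and even
`ed (con G u v) S' ⊆ (((ed G S).erase s(u, v)).erase s(v, w)).image (Sym2.map (mv u v))`, as the image
of `s(v, w)` is `s(u, w)`, also the image of `s(u, w) ∈ ed G S`. So
`|ed (con G u v) S'| + 3 ≤ |ed G S| - 2 + 3 = 2 |S| - 2 = 2 |S'|`.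
-/

namespace Pool.Agent.H17.TF

open Finset

section
variable {V : Type} [Fintype V]

theorem mem_ed {G : SimpleGraph V} {S : Finset V} {x y : V} :
    s(x, y) ∈ ed G S ↔ G.Adj x y ∧ x ∈ S ∧ y ∈ S := by
  classical
  unfold ed
  rw [mem_filter]
  constructor
  · rintro ⟨-, h1, h2⟩
    exact ⟨h1, h2 x (Sym2.mem_mk_left x y), h2 y (Sym2.mem_mk_right x y)⟩
  · rintro ⟨h1, h2, h3⟩
    refine ⟨mem_univ _, h1, fun z hz => ?_⟩
    rcases Sym2.mem_iff.1 hz with rfl | rfl
    · exact h2
    · exact h3

open Classical in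
theorem con_sparse (G : SimpleGraph V) (A : Finset V) {u v w : V} (hu : u ∈ A) (hv : v ∈ A)
    (huv : G.Adj u v) (hs : SparseOn G A)
    (hc : ∀ S ⊆ A, Tight G S → u ∈ S → v ∈ S → w ∈ S ∧ G.Adj u w ∧ G.Adj v w) :
    SparseOn (con G u v) (A.erase v) := by
  intro S' hS' h2
  have hvS : v ∉ S' := fun h => (mem_erase.1 (hS' h)).1 rfl
  have hSA : S' ⊆ A := hS'.trans (erase_subset _ _)
  have hne : u ≠ v := huv.ne
  have hmv : ∀ x' x, mv u v x' = x → (x' = v ∧ x = u) ∨ (x' ≠ v ∧ x' = x) := by
    intro x' x h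
    unfold mv at h
    by_cases h1 : x' = v
    · rw [if_pos h1] at h
      exact Or.inl ⟨h1, h.symm⟩
    · rw [if_neg h1] at h
      exact Or.inr ⟨h1, h⟩
  by_cases huS : u ∈ S'
  · obtain ⟨S, hS⟩ : ∃ S, S = insert v S' := ⟨_, rfl⟩
    have hSc : S.card = S'.card + 1 := by rw [hS, card_insert_of_notMem hvS]
    have hSsub : S ⊆ A := by
      rw [hS]
      exact insert_subset hv hSA
    have hvS2 : v ∈ S := by rw [hS]; exact mem_insert_self _ _
    have huS2 : u ∈ S := by rw [hS]; exact mem_insert_of_mem huS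
    have hb := hs S hSsub (by omega)
    have huvE : s(u, v) ∈ ed G S := mem_ed.2 ⟨huv, huS2, hvS2⟩
    -- preimages
    have hpre : ∀ e ∈ ed (con G u v) S', ∃ x' y', e = Sym2.map (mv u v) s(x', y') ∧
        s(x', y') ∈ ed G S ∧ s(x', y') ≠ s(u, v) := by
      intro e
      induction e using Sym2.ind with
      | h x y =>
        intro he
        obtain ⟨⟨hxy, x', y', h1, h3, h4⟩, h5, h6⟩ := mem_ed.1 he
        have hx' : x' ∈ S := by
          rcases hmv x' x h3 with ⟨h7, -⟩ | ⟨-, h7⟩
          · rw [h7]; exact hvS2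
          · rw [h7, hS]; exact mem_insert_of_mem h5
        have hy' : y' ∈ S := by
          rcases hmv y' y h4 with ⟨h7, -⟩ | ⟨-, h7⟩
          · rw [h7]; exact hvS2
          · rw [h7, hS]; exact mem_insert_of_mem h6
        refine ⟨x', y', ?_, mem_ed.2 ⟨h1, hx', hy'⟩, ?_⟩
        · rw [Sym2.map_mk, h3, h4]
        · intro h7
          have h8 : Sym2.map (mv u v) s(x', y') = Sym2.map (mv u v) s(u, v) := by rw [h7]
          rw [Sym2.map_mk, Sym2.map_mk, h3, h4] at h8
          have h9 : mv u v u = u := by unfold mv; rw [if_neg hne]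
          have h10 : mv u v v = u := by unfold mv; rw [if_pos rfl]
          rw [h9, h10] at h8
          rcases Sym2.eq_iff.1 h8 with ⟨h11, h12⟩ | ⟨h11, h12⟩
          · exact hxy (h11.trans h12.symm)
          · exact hxy (h11.trans h12.symm)
    by_cases ht : Tight G S
    · obtain ⟨hwS, huw, hvw⟩ := hc S hSsub ht huS2 hvS2
      have hvwE : s(v, w) ∈ ed G S := mem_ed.2 ⟨hvw, hvS2, hwS⟩
      have huwE : s(u, w) ∈ ed G S := mem_ed.2 ⟨huw, huS2, hwS⟩
      have hwv : w ≠ v := hvw.ne.symm
      have hwu : w ≠ u := huw.ne.symm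
      have hne2 : s(v, w) ≠ s(u, v) := by
        intro h
        rcases Sym2.eq_iff.1 h with ⟨h1, -⟩ | ⟨-, h1⟩
        · exact hne h1.symm
        · exact hwu h1
      have hsub : ed (con G u v) S' ⊆
          (((ed G S).erase s(u, v)).erase s(v, w)).image (Sym2.map (mv u v)) := by
        intro e he
        obtain ⟨x', y', h1, h3, h4⟩ := hpre e he
        rw [mem_image]
        by_cases h5 : s(x', y') = s(v, w)
        · refine ⟨s(u, w), ?_, ?_⟩
          · rw [mem_erase, mem_erase]
            refine ⟨?_, ?_, huwE⟩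
            · intro h6
              rcases Sym2.eq_iff.1 h6 with ⟨h7, -⟩ | ⟨h7, -⟩
              · exact hne h7
              · exact hwu h7.symm
            · intro h6
              rcases Sym2.eq_iff.1 h6 with ⟨-, h7⟩ | ⟨-, h7⟩
              · exact hwv h7
              · exact hwu h7
          · rw [h1, h5, Sym2.map_mk, Sym2.map_mk]
            have h9 : mv u v u = u := by unfold mv; rw [if_neg hne]
            have h10 : mv u v v = u := by unfold mv; rw [if_pos rfl]
            rw [h9, h10]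
        · exact ⟨s(x', y'), mem_erase.2 ⟨h5, mem_erase.2 ⟨h4, h3⟩⟩, h1.symm⟩
      have h5 := (card_le_card hsub).trans card_image_le
      rw [card_erase_of_mem (mem_erase.2 ⟨hne2, hvwE⟩), card_erase_of_mem huvE] at h5
      have h6 : 2 ≤ (ed G S).card := by
        have h7 : ({s(u, v), s(v, w)} : Finset (Sym2 V)) ⊆ ed G S := by
          intro e he
          rw [mem_insert, mem_singleton] at he
          rcases he with rfl | rfl
          · exact huvE
          · exact hvwE
        have h8 := card_le_card h7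
        rwa [card_pair hne2.symm] at h8
      have h7 := ht.2
      omega
    · have h3 : (ed G S).card + 3 ≠ 2 * S.card := fun h => ht ⟨by omega, h⟩
      have hsub : ed (con G u v) S' ⊆ ((ed G S).erase s(u, v)).image (Sym2.map (mv u v)) := by
        intro e he
        obtain ⟨x', y', h1, h3, h4⟩ := hpre e he
        rw [mem_image]
        exact ⟨s(x', y'), mem_erase.2 ⟨h4, h3⟩, h1.symm⟩
      have h5 := (card_le_card hsub).trans card_image_le
      rw [card_erase_of_mem huvE] at h5
      have h6 : 1 ≤ (ed G S).card := card_pos.2 ⟨_, huvE⟩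
      omega
  · have hsub : ed (con G u v) S' ⊆ ed G S' := by
      intro e
      induction e using Sym2.ind with
      | h x y =>
        intro he
        obtain ⟨⟨hxy, x', y', h1, h3, h4⟩, h5, h6⟩ := mem_ed.1 he
        have hx' : x' = x := by
          rcases hmv x' x h3 with ⟨-, h7⟩ | ⟨-, h7⟩
          · exact absurd (h7 ▸ h5) huS
          · exact h7
        have hy' : y' = y := by
          rcases hmv y' y h4 with ⟨-, h7⟩ | ⟨-, h7⟩
          · exact absurd (h7 ▸ h6) huS
          · exact h7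
        rw [hx', hy'] at h1
        exact mem_ed.2 ⟨h1, h5, h6⟩
    have h5 := card_le_card hsub
    have h6 := hs S' hSA h2
    omega

end

end Pool.Agent.H17.TF
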