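import Pool.Agent.H32.BC.Defs

set_option autoImplicit false

/-!
Two colours for sparse planar oriented graphs (`MP_da50b6_co`): definitions.

`ed G S`: the edges of `G` inside `S`. `SparseOn G A`: every `S ⊆ A` with at least two vertices has at
most `2 |S| - 3` edges. `Tight G S`: `|S| ≥ 3` and exactly `2 |S| - 3` edges. `con G u v`: the vertex
`v` is moved onto `u` (contraction if `u`, `v` are adjacent). `Mac G A`: the graph `G` on `A` is
contained in a multigraph without loops whose cycle space is a cut space (MacLane's property).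
`TriSparse G A`: triangle-free sets `S ⊆ A` with `|S| ≥ 3` have at most `2 |S| - 4` edges.
-/

namespace Pool.Agent.H17.TF

open Finset Pool.Agent.H32.BC

section
variable {V : Type} [Fintype V]

open Classical in
/-- the edges of `G` inside `S` -/
noncomputable def ed (G : SimpleGraph V) (S : Finset V) : Finset (Sym2 V) :=
  univ.filter (fun e => e ∈ G.edgeSet ∧ ∀ x ∈ e, x ∈ S)

/-- every set of at least two vertices in `A` has at most `2 |S| - 3` edges -/
def SparseOn (G : SimpleGraph V) (A : Finset V) : Prop :=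
  ∀ S ⊆ A, 2 ≤ S.card → (ed G S).card + 3 ≤ 2 * S.card

/-- `|S| ≥ 3` and exactly `2 |S| - 3` edges -/
def Tight (G : SimpleGraph V) (S : Finset V) : Prop :=
  3 ≤ S.card ∧ (ed G S).card + 3 = 2 * S.card

/-- the triangle-free sets in `A` with at least three vertices have at most `2 |S| - 4` edges -/
def TriSparse (G : SimpleGraph V) (A : Finset V) : Prop :=
  ∀ S ⊆ A, 3 ≤ S.card → (∀ a ∈ S, ∀ b ∈ S, ∀ c ∈ S, G.Adj a b → G.Adj b c → ¬ G.Adj a c) →
    (ed G S).card + 4 ≤ 2 * S.card

end

section
variable {V : Type}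

open Classical in
/-- move `v` onto `u` -/
noncomputable def mv (u v x : V) : V := if x = v then u else x

/-- the graph after moving `v` onto `u` -/
def con (G : SimpleGraph V) (u v : V) : SimpleGraph V where
  Adj x y := x ≠ y ∧ ∃ x' y', G.Adj x' y' ∧ mv u v x' = x ∧ mv u v y' = y
  symm := ⟨fun _ _ ⟨h, x', y', h1, h2, h3⟩ => ⟨h.symm, y', x', h1.symm, h3, h2⟩⟩
  loopless := ⟨fun _ h => h.1 rfl⟩

/-- the graph on `A` is contained in a loopless multigraph whose cycle space is a cut space -/
def Mac (G : SimpleGraph V) (A : Finset V) : Prop :=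
  ∃ (E : Type) (_ : Fintype E) (ends : E → Sym2 V), (∀ e, ¬ (ends e).IsDiag) ∧
    IsCutSpace (cyc ends) ∧ ∀ x ∈ A, ∀ y ∈ A, G.Adj x y → ∃ e, ends e = s(x, y)

end

end Pool.Agent.H17.TF
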