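import Pool.Agent.H17.TF.Defs
import Pool.Agent.H32.BC.CutSub

set_option autoImplicit false

/-!
MacLane's property is inherited by contractions.

Proof. Let `E, ends` be given for `G, A`. By `h.2.2` there is `e0` with `ends e0 = s(u, v)`.
`E' = {e // ends e ≠ s(u, v)}`, `ends' e = Sym2.map (mv u v) (ends e)`.
(1) `ends' e` is not diagonal: `ends e = s(x, y)`, `x ≠ y`, `mv u v x = mv u v y` only if
`{x, y} = {u, v}`.
(2) If `(con G u v).Adj x y`, `x, y ∈ A.erase v`, take `x', y'` from the definition: `x' = x` or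
(`x' = v` and `x = u`), so `x' ∈ A`, the same for `y'`; so there is `e` with `ends e = s(x', y')`, and
`s(x', y') ≠ s(u, v)` as `x ≠ y`; `ends' e = s(x, y)`.
(3) Cut space. `E'' = {e // ends e ≠ s(u, v) ∨ e = e0}`: by `cut_sub` (`ι = Subtype.val`) the cycle space
of `E''` is a cut space, `J, a, b`. Use `J, a, b` restricted to `E'`. To show: for `z' : E' → ZMod 2`,
`z' ∈ cyc ends'` iff `z'` is the restriction of some `z ∈ cyc (ends on E'')` (then
`z e = q (a e) + q (b e)` for all `e ∈ E''` iff ... : given `q` with `z' e = q (a e) + q (b e)` on `E'`, take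
`z = q ∘ a + q ∘ b` on `E''`; it is in the cycle space of `E''`). Sums over `E''` = sum over `E'` + the
term of `e0`. For `e ∈ E'`: `bd (ends' e) x = bd (ends e) x` for `x ≠ u, v`, `bd (ends' e) v = 0`,
`bd (ends' e) u = bd (ends e) u + bd (ends e) v` (not both are 1, as `ends e ≠ s(u, v)`).
`→`: given `z'` put `z e0 = ∑ e : E', z' e * bd (ends e) v`; at `v` the sum is `2 z e0 = 0`, at `u` it is
`∑ z' e (bd (ends e) u + bd (ends e) v) = 0`, elsewhere the term of `e0` is 0.
`←`: at `u` add the equations of `u` and `v` for `z`, the term of `e0` cancels.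
-/

namespace Pool.Agent.H17.TF

open Finset Pool.Agent.H32.BC

private theorem mv_cases {V : Type} (u v x : V) :
    (x = v ∧ mv u v x = u) ∨ (x ≠ v ∧ mv u v x = x) := by
  classical
  unfold mv
  by_cases h : x = v
  · left
    exact ⟨h, if_pos h⟩
  · right
    exact ⟨h, if_neg h⟩

private theorem bd_mv {V : Type} {u v : V} (huv : u ≠ v) {e : Sym2 V} (he : e ≠ s(u, v)) :
    bd (Sym2.map (mv u v) e) v = 0 ∧
      bd (Sym2.map (mv u v) e) u = bd e u + bd e v ∧
      ∀ x, x ≠ u → x ≠ v → bd (Sym2.map (mv u v) e) x = bd e x := by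
  classical
  refine ⟨?_, ?_, ?_⟩
  · unfold bd
    rw [if_neg]
    rw [Sym2.mem_map]
    rintro ⟨a, -, ha⟩
    rcases mv_cases u v a with ⟨-, h⟩ | ⟨h1, h⟩
    · exact huv (h.symm.trans ha)
    · exact h1 (h.symm.trans ha)
  · have h1 : u ∈ Sym2.map (mv u v) e ↔ u ∈ e ∨ v ∈ e := by
      rw [Sym2.mem_map]
      constructor
      · rintro ⟨a, ha, hau⟩
        rcases mv_cases u v a with ⟨h, -⟩ | ⟨-, h⟩
        · rw [h] at ha
          exact Or.inr ha
        · rw [h] at hau
          rw [hau] at ha
          exact Or.inl ha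
      · rintro (h | h)
        · refine ⟨u, h, ?_⟩
          rcases mv_cases u v u with ⟨h2, -⟩ | ⟨-, h2⟩
          · exact absurd h2 huv
          · exact h2
        · refine ⟨v, h, ?_⟩
          rcases mv_cases u v v with ⟨-, h2⟩ | ⟨h2, -⟩
          · exact h2
          · exact absurd rfl h2
    have h2 : ¬ (u ∈ e ∧ v ∈ e) := fun h => he ((Sym2.mem_and_mem_iff huv).1 h)
    unfold bd
    by_cases h3 : u ∈ e
    · have h4 : v ∉ e := fun h4 => h2 ⟨h3, h4⟩
      rw [if_pos (h1.2 (Or.inl h3)), if_pos h3, if_neg h4, add_zero]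
    · by_cases h4 : v ∈ e
      · rw [if_pos (h1.2 (Or.inr h4)), if_neg h3, if_pos h4, zero_add]
      · rw [if_neg (fun h => (h1.1 h).elim h3 h4), if_neg h3, if_neg h4, add_zero]
  · intro x hxu hxv
    have h1 : x ∈ Sym2.map (mv u v) e ↔ x ∈ e := by
      rw [Sym2.mem_map]
      constructor
      · rintro ⟨a, ha, hau⟩
        rcases mv_cases u v a with ⟨-, h⟩ | ⟨-, h⟩
        · exact absurd (hau.symm.trans h) hxu
        · rw [h] at hau
          rwa [hau] at ha
      · intro h
        refine ⟨x, h, ?_⟩
        rcases mv_cases u v x with ⟨h2, -⟩ | ⟨-, h2⟩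
        · exact absurd h2 hxv
        · exact h2
    unfold bd
    by_cases h : x ∈ e
    · rw [if_pos (h1.2 h), if_pos h]
    · rw [if_neg (fun h' => h (h1.1 h')), if_neg h]

open Classical in
theorem mac_con {V : Type} (G : SimpleGraph V) (A : Finset V) {u v : V} (hu : u ∈ A) (hv : v ∈ A)
    (huv : G.Adj u v) (h : Mac G A) : Mac (con G u v) (A.erase v) := by
  obtain ⟨E, hE, ends, hd, hcut, hcov⟩ := h
  obtain ⟨e0, he0⟩ := hcov u hu v hv huv
  have hne : u ≠ v := huv.ne
  refine ⟨{e : E // ends e ≠ s(u, v)}, inferInstance, fun e => Sym2.map (mv u v) (ends e.1), ?_, ?_,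
    ?_⟩
  · rintro ⟨e, he⟩ hdiag
    have hd' := hd e
    revert he hdiag hd'
    show ends e ≠ s(u, v) → (Sym2.map (mv u v) (ends e)).IsDiag → ¬ (ends e).IsDiag → False
    induction ends e using Sym2.ind with
    | h x y =>
      intro h1 h2 h3
      rw [Sym2.map_mk, Sym2.mk_isDiag_iff] at h2
      rw [Sym2.mk_isDiag_iff] at h3
      rcases mv_cases u v x with ⟨h4, h5⟩ | ⟨h4, h5⟩ <;>
        rcases mv_cases u v y with ⟨h6, h7⟩ | ⟨h6, h7⟩
      · exact h3 (h4.trans h6.symm)
      · rw [h5, h7] at h2
        exact h1 (by rw [h4, ← h2, Sym2.eq_swap])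
      · rw [h5, h7] at h2
        exact h1 (by rw [h6, h2])
      · rw [h5, h7] at h2
        exact h3 h2
  · -- the cut space
    obtain ⟨J, hJ, a, b, hab⟩ := cut_sub ends
      (Subtype.val : {e : E // ends e ≠ s(u, v) ∨ e = e0} → E) Subtype.val_injective hcut
    let j : {e : E // ends e ≠ s(u, v)} → {e : E // ends e ≠ s(u, v) ∨ e = e0} :=
      fun e => ⟨e.1, Or.inl e.2⟩
    let e1 : {e : E // ends e ≠ s(u, v) ∨ e = e0} := ⟨e0, Or.inr rfl⟩
    let k : Option {e : E // ends e ≠ s(u, v)} → {e : E // ends e ≠ s(u, v) ∨ e = e0} :=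
      fun o => o.elim e1 j
    have hk : Function.Bijective k := by
      constructor
      · intro o o' hoo
        rcases o with _ | o <;> rcases o' with _ | o'
        · rfl
        · have h1 : e0 = o'.1 := congrArg Subtype.val hoo
          exact absurd (h1 ▸ he0) o'.2
        · have h1 : o.1 = e0 := congrArg Subtype.val hoo
          exact absurd (h1 ▸ he0) o.2
        · have h1 : j o = j o' := hoo
          have h2 := congrArg Subtype.val h1
          have h3 : o.1 = o'.1 := h2
          rw [Subtype.ext h3]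
      · rintro ⟨e, he⟩
        by_cases h1 : ends e = s(u, v)
        · refine ⟨none, ?_⟩
          rcases he with h2 | h2
          · exact absurd h1 h2
          · exact Subtype.ext h2.symm
        · exact ⟨some ⟨e, h1⟩, rfl⟩
    have hsum : ∀ F : {e : E // ends e ≠ s(u, v) ∨ e = e0} → ZMod 2,
        ∑ e, F e = F e1 + ∑ e, F (j e) := by
      intro F
      rw [← hk.sum_comp F, Fintype.sum_option]
      rfl
    have bu : bd (ends e0) u = 1 := by
      unfold bd
      rw [he0, if_pos (Sym2.mem_mk_left u v)]
    have bv : bd (ends e0) v = 1 := by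
      unfold bd
      rw [he0, if_pos (Sym2.mem_mk_right u v)]
    have bx : ∀ x, x ≠ u → x ≠ v → bd (ends e0) x = 0 := by
      intro x h1 h2
      unfold bd
      rw [he0, if_neg]
      rw [Sym2.mem_iff]
      rintro (h | h)
      · exact h1 h
      · exact h2 h
    refine ⟨J, hJ, fun e => a (j e), fun e => b (j e), fun z' => ?_⟩
    constructor
    · intro hz'
      obtain ⟨t, ht⟩ : ∃ t : ZMod 2, t = ∑ e : {e : E // ends e ≠ s(u, v)},
        z' e * bd (ends e.1) v := ⟨_, rfl⟩
      let z : {e : E // ends e ≠ s(u, v) ∨ e = e0} → ZMod 2 := fun e =>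
        if h : ends e.1 ≠ s(u, v) then z' ⟨e.1, h⟩ else t
      have hzj : ∀ e, z (j e) = z' e := fun e => dif_pos e.2
      have hz1 : z e1 = t := dif_neg (fun h => h he0)
      have hz : z ∈ cyc (fun e : {e : E // ends e ≠ s(u, v) ∨ e = e0} => ends e.1) := by
        intro x
        rw [hsum]
        simp only [hzj, hz1]
        by_cases h1 : x = v
        · rw [h1]
          show t * bd (ends e0) v + ∑ e : {e : E // ends e ≠ s(u, v)}, z' e * bd (ends e.1) v = 0
          rw [bv, mul_one, ← ht]
          exact CharTwo.add_self_eq_zero t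
        · by_cases h2 : x = u
          · rw [h2]
            show t * bd (ends e0) u + ∑ e : {e : E // ends e ≠ s(u, v)}, z' e * bd (ends e.1) u = 0
            rw [bu, mul_one, ht, ← Finset.sum_add_distrib, ← hz' u]
            refine Finset.sum_congr rfl fun e _ => ?_
            rw [(bd_mv hne e.2).2.1]
            ring
          · show t * bd (ends e0) x + ∑ e : {e : E // ends e ≠ s(u, v)}, z' e * bd (ends e.1) x = 0
            rw [bx x h2 h1, mul_zero, zero_add, ← hz' x]
            refine Finset.sum_congr rfl fun e _ => ?_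
            rw [(bd_mv hne e.2).2.2 x h2 h1]
      obtain ⟨q, hq⟩ := (hab z).1 hz
      exact ⟨q, fun e => by rw [← hzj e]; exact hq (j e)⟩
    · rintro ⟨q, hq⟩
      have hz := (hab (fun e => q (a e) + q (b e))).2 ⟨q, fun e => rfl⟩
      intro x
      have hx := hz x
      rw [hsum] at hx
      by_cases h1 : x = v
      · rw [h1]
        refine Finset.sum_eq_zero fun e _ => ?_
        rw [(bd_mv hne e.2).1, mul_zero]
      · by_cases h2 : x = u
        · have hxv := hz v
          rw [hsum] at hxv
          rw [h2] at hx ⊢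
          have hx' : (q (a e1) + q (b e1)) * bd (ends e0) u +
              ∑ e : {e : E // ends e ≠ s(u, v)}, z' e * bd (ends e.1) u = 0 := by
            rw [← hx]
            congr 1
            refine Finset.sum_congr rfl fun e _ => ?_
            rw [hq e]
          have hxv' : (q (a e1) + q (b e1)) * bd (ends e0) v +
              ∑ e : {e : E // ends e ≠ s(u, v)}, z' e * bd (ends e.1) v = 0 := by
            rw [← hxv]
            congr 1
            refine Finset.sum_congr rfl fun e _ => ?_
            rw [hq e]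
          rw [bu, mul_one] at hx'
          rw [bv, mul_one] at hxv'
          have h3 : ∑ e : {e : E // ends e ≠ s(u, v)}, z' e * bd (Sym2.map (mv u v) (ends e.1)) u =
              ∑ e : {e : E // ends e ≠ s(u, v)}, z' e * bd (ends e.1) u +
                ∑ e : {e : E // ends e ≠ s(u, v)}, z' e * bd (ends e.1) v := by
            rw [← Finset.sum_add_distrib]
            refine Finset.sum_congr rfl fun e _ => ?_
            rw [(bd_mv hne e.2).2.1]
            ring
          rw [h3]
          have h4 : (q (a e1) + q (b e1)) + (q (a e1) + q (b e1)) = 0 := CharTwo.add_self_eq_zero _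
          linear_combination hx' + hxv' - h4
        · have hx' : (q (a e1) + q (b e1)) * bd (ends e0) x +
              ∑ e : {e : E // ends e ≠ s(u, v)}, z' e * bd (ends e.1) x = 0 := by
            rw [← hx]
            congr 1
            refine Finset.sum_congr rfl fun e _ => ?_
            rw [hq e]
          rw [bx x h2 h1, mul_zero, zero_add] at hx'
          rw [← hx']
          refine Finset.sum_congr rfl fun e _ => ?_
          rw [(bd_mv hne e.2).2.2 x h2 h1]
  · -- the edges
    intro x hx y hy hxy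
    obtain ⟨hxne, x', y', h1, h2, h3⟩ := hxy
    have hxA := mem_erase.1 hx
    have hyA := mem_erase.1 hy
    have hx' : x' ∈ A := by
      rcases mv_cases u v x' with ⟨h4, -⟩ | ⟨-, h4⟩
      · rw [h4]; exact hv
      · rw [← h4, h2]; exact hxA.2
    have hy' : y' ∈ A := by
      rcases mv_cases u v y' with ⟨h4, -⟩ | ⟨-, h4⟩
      · rw [h4]; exact hv
      · rw [← h4, h3]; exact hyA.2
    obtain ⟨e, he⟩ := hcov x' hx' y' hy' h1
    have hmap : Sym2.map (mv u v) s(x', y') = s(x, y) := by rw [Sym2.map_mk, h2, h3]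
    have hene : ends e ≠ s(u, v) := by
      intro h4
      rw [he] at h4
      have h5 : Sym2.map (mv u v) s(x', y') = Sym2.map (mv u v) s(u, v) := by rw [h4]
      rw [hmap, Sym2.map_mk] at h5
      have h9 : mv u v u = u := by
        rcases mv_cases u v u with ⟨h, -⟩ | ⟨-, h⟩
        · exact absurd h hne
        · exact h
      have h10 : mv u v v = u := by
        rcases mv_cases u v v with ⟨-, h⟩ | ⟨h, -⟩
        · exact h
        · exact absurd rfl h
      rw [h9, h10] at h5
      rcases Sym2.eq_iff.1 h5 with ⟨h6, h7⟩ | ⟨h6, h7⟩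
      · exact hxne (h6.trans h7.symm)
      · exact hxne (h6.trans h7.symm)
    exact ⟨⟨e, hene⟩, by rw [← hmap, ← he]⟩

end Pool.Agent.H17.TF
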