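import Pool.Agent.H17.TF.Defs
import Pool.Agent.H32.BC.CutSub
import Pool.Agent.H32.BC.CutCount
import Pool.Agent.H32.BC.CutPlanar
import Pool.Agent.H32.BC.Rank
import Pool.Agent.H32.BC.Even4

set_option autoImplicit false

/-!
MacLane's property holds for planar graphs and implies the bound `2 |S| - 4` for triangle-free sets.

`even4t`: as `even5` in `Pool/Agent/H32/BC/Even5.lean` (stop after four edges): edges
`s(a,b)`, `s(b,c)` (`c ≠ a`), `s(c,d)` (`d ≠ b`, and `d ≠ a`: no triangle) and at `a` another edge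
`s(a,f)`, `f ≠ b`.

`mac_tri`: as `g5_sparse` in `Pool/Agent/H32/BC/G5Sparse.lean`. `E1 = {e : Sym2 V // e ∈ G.edgeSet ∧
∀ x ∈ e, x ∈ S}`, `ends1 = Subtype.val`, `Fintype.card E1 = (ed G S).card`. For every `e : E1` choose
(`Mac`) an element `ι e : E` with `ends (ι e) = e.1` (injective, since `ends ∘ ι = Subtype.val` is);
by `cut_sub` `cyc ends1` is a cut space (rewrite `fun e => ends (ι e) = ends1`). `rank_cyc`, `rank_le`:
`|E1| + 1 ≤ dim Z + |S|`. `Z = ⊥`: `|E1| + 1 ≤ |S|`, and `|S| ≥ 3`. Otherwise `cut_count` with `g = 4`,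
`even4t`: `4 (dim Z + 1) ≤ 2 |E1|`, so `4 (|E1| + 2 - |S|) ≤ 2 |E1|`, `|E1| + 4 ≤ 2 |S|`.

`planar_mac`: `E = G.edgeSet`, `planar_cut`.
-/

namespace Pool.Agent.H17.TF

open Finset Pool.Agent.H32.BC

theorem even4t {V E : Type} [Fintype E] (ends : E → Sym2 V) (hinj : Function.Injective ends)
    (hd : ∀ e, ¬ (ends e).IsDiag)
    (htf : ∀ a b c e1 e2 e3, ends e1 = s(a, b) → ends e2 = s(b, c) → ends e3 ≠ s(a, c))
    (z : E → ZMod 2) (hz : z ∈ cyc ends) (hz0 : z ≠ 0) : 4 ≤ (supp z).card := by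
  classical
  obtain ⟨e1, hz1⟩ := Function.ne_iff.1 hz0
  rw [Pi.zero_apply] at hz1
  obtain ⟨a, b, h1⟩ : ∃ a b, ends e1 = s(a, b) := by
    induction h : ends e1 using Sym2.ind with
    | _ a b => exact ⟨a, b, rfl⟩
  have nd : ∀ e x y, ends e = s(x, y) → x ≠ y := by
    intro e x y h hxy
    apply hd e
    rw [h, Sym2.mk_isDiag_iff]
    exact hxy
  have key : ∀ (e : E), z e ≠ 0 → ∀ x y, ends e = s(x, y) →
      ∃ e' w, e' ≠ e ∧ z e' ≠ 0 ∧ ends e' = s(y, w) ∧ w ≠ x := by
    intro e he x y hxy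
    obtain ⟨e', hne, hz', hmem⟩ := exists_other ends z hz e he y (by rw [hxy]; simp)
    obtain ⟨w, hw⟩ := Sym2.mem_iff_exists.1 hmem
    refine ⟨e', w, hne, hz', hw, ?_⟩
    rintro rfl
    apply hne
    apply hinj
    rw [hw, hxy, Sym2.eq_swap]
  obtain ⟨e2, c, h12, hz2, h2, hca⟩ := key e1 hz1 a b h1
  obtain ⟨e3, d, h23, hz3, h3, hdb⟩ := key e2 hz2 b c h2
  obtain ⟨e4, f, h14, hz4, h4, hfb⟩ := key e1 hz1 b a (by rw [h1, Sym2.eq_swap])
  have hda : d ≠ a := by
    rintro rfl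
    exact htf d b c e1 e2 e3 h1 h2 (by rw [h3, Sym2.eq_swap])
  have hab : a ≠ b := nd e1 a b h1
  have ma1 : a ∈ ends e1 := by rw [h1]; simp
  have ma4 : a ∈ ends e4 := by rw [h4]; simp
  have na2 : a ∉ ends e2 := by
    rw [h2, Sym2.mem_iff]
    rintro (h | h)
    · exact hab h
    · exact hca h.symm
  have na3 : a ∉ ends e3 := by
    rw [h3, Sym2.mem_iff]
    rintro (h | h)
    · exact hca h.symm
    · exact hda h.symm
  have d13 : e1 ≠ e3 := fun h => na3 (h ▸ ma1)
  have d24 : e2 ≠ e4 := fun h => na2 (h ▸ ma4)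
  have d34 : e3 ≠ e4 := fun h => na3 (h ▸ ma4)
  have hcard : ({e1, e2, e3, e4} : Finset E).card = 4 := by
    rw [card_insert_of_notMem, card_insert_of_notMem, card_insert_of_notMem, card_singleton]
    · simp [d34]
    · simp [h23.symm, d24]
    · simp [h12.symm, d13, h14.symm]
  rw [← hcard]
  apply card_le_card
  intro e he
  simp only [mem_insert, mem_singleton] at he
  unfold supp
  rw [mem_filter]
  refine ⟨mem_univ _, ?_⟩
  rcases he with rfl | rfl | rfl | rfl
  · exact hz1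
  · exact hz2
  · exact hz3
  · exact hz4

theorem mac_tri {V : Type} [Fintype V] (G : SimpleGraph V) (A : Finset V) (h : Mac G A) :
    TriSparse G A := by
  classical
  intro S hSA hS3 htri
  obtain ⟨E, hE, ends, hd, hcut, hcov⟩ := h
  let E1 : Type := {e : Sym2 V // e ∈ G.edgeSet ∧ ∀ x ∈ e, x ∈ S}
  let ends1 : E1 → Sym2 V := fun e => e.1
  have hex : ∀ e : E1, ∃ e' : E, ends e' = ends1 e := by
    rintro ⟨e, he1, he2⟩
    show ∃ e' : E, ends e' = e
    induction e using Sym2.ind with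
    | h x y =>
      exact hcov x (hSA (he2 x (Sym2.mem_mk_left x y))) y (hSA (he2 y (Sym2.mem_mk_right x y)))
        ((SimpleGraph.mem_edgeSet G).1 he1)
  choose ι hι using hex
  have hιinj : Function.Injective ι := by
    intro e e' hee
    apply Subtype.ext
    show ends1 e = ends1 e'
    rw [← hι e, ← hι e', hee]
  have hinj : Function.Injective ends1 := fun e e' h => Subtype.ext h
  have hcut1 : IsCutSpace (cyc ends1) := by
    have h1 := cut_sub ends ι hιinj hcut
    have h2 : (fun e => ends (ι e)) = ends1 := funext hι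
    rw [h2] at h1
    exact h1
  have hd1 : ∀ e, ¬ (ends1 e).IsDiag := fun e => G.not_isDiag_of_mem_edgeSet e.2.1
  have hSne : S.Nonempty := Finset.card_pos.1 (by omega)
  have hr := rank_cyc ends1
  have hr2 := rank_le ends1 S hSne (fun e x hx => e.2.2 x hx) hd1
  have hcard : Fintype.card E1 = (ed G S).card := by
    unfold ed
    rw [Fintype.card_subtype]
  rw [← hcard]
  by_cases hZ : cyc ends1 = ⊥
  · have h0 : Module.finrank (ZMod 2) (cyc ends1) = 0 := by
      rw [hZ]; exact finrank_bot _ _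
    omega
  · have h5 := cut_count (cyc ends1) hcut1 hZ 4
      (fun z hz hz0 => even4t ends1 hinj hd1 ?_ z hz hz0)
    · omega
    · intro a b c e1 e2 e3 h1 h2 h3
      have g1 : G.Adj a b := (SimpleGraph.mem_edgeSet G).1 (h1 ▸ e1.2.1)
      have g2 : G.Adj b c := (SimpleGraph.mem_edgeSet G).1 (h2 ▸ e2.2.1)
      have g3 : G.Adj a c := (SimpleGraph.mem_edgeSet G).1 (h3 ▸ e3.2.1)
      have ha : a ∈ S := e1.2.2 a (by rw [show e1.1 = s(a, b) from h1]; simp)
      have hb : b ∈ S := e1.2.2 b (by rw [show e1.1 = s(a, b) from h1]; simp)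
      have hc : c ∈ S := e2.2.2 c (by rw [show e2.1 = s(b, c) from h2]; simp)
      exact htri a ha b hb c hc g1 g2 g3

theorem planar_mac {V : Type} [Fintype V] (G : SimpleGraph V)
    (hG : Pool.Agent.H29.Tor.IsPlanar G) (A : Finset V) : Mac G A := by
  classical
  refine ⟨G.edgeSet, inferInstance, Subtype.val, fun e => G.not_isDiag_of_mem_edgeSet e.2,
    planar_cut G hG, ?_⟩
  intro x _ y _ hxy
  exact ⟨⟨s(x, y), (SimpleGraph.mem_edgeSet G).2 hxy⟩, rfl⟩

end Pool.Agent.H17.TF
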