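import Pool.Agent.H17.TF.Star
import Pool.Agent.H17.TF.MacCon
import Pool.Agent.H17.TF.MacTri
import Pool.Agent.H13.DA.Defs

set_option autoImplicit false

/-!
Every orientation of a sparse planar graph can be made acyclic by reversing a cut.
-/

namespace Pool.Agent.H17.TF

open Finset Pool.Agent.H13.DA

/-- an orientation of the complete graph -/
theorem exists_ori (W : Type) : ∃ o : W → W → ZMod 2, Ori o := by
  classical
  refine ⟨fun x y => if WellOrderingRel x y then 1 else 0, ?_⟩
  intro x y hxy
  rcases trichotomous_of WellOrderingRel x y with h | h | h
  · have h' : ¬ WellOrderingRel y x := fun h' => asymm_of WellOrderingRel h h'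
    simp [h, h']
  · exact absurd h hxy
  · have h' : ¬ WellOrderingRel x y := fun h' => asymm_of WellOrderingRel h h'
    simp [h, h']

section
variable {V : Type} [Fintype V]

open Classical in
/-- `X` is the cut, `r` the order: induction on the number of vertices -/
theorem acyclic_cut : ∀ (n : ℕ) (G : SimpleGraph V) (A : Finset V), A.card ≤ n → SparseOn G A →
    Mac G A → ∀ o : V → V → ZMod 2, Ori o →
    ∃ (X : V → ZMod 2) (r : V → ℕ), ∀ x ∈ A, ∀ y ∈ A, G.Adj x y → o x y + X x + X y = 1 →
      r x < r y := by
  intro n
  induction n with
  | zero =>
    intro G A hA hs hm o ho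
    have hA0 : A = ∅ := Finset.card_eq_zero.1 (by omega)
    subst hA0
    exact ⟨fun _ => 0, fun _ => 0, fun x hx => absurd hx (notMem_empty x)⟩
  | succ n ih =>
    intro G A hA hs hm o ho
    by_cases hne : ∃ x ∈ A, ∃ y ∈ A, G.Adj x y
    swap
    · push Not at hne
      exact ⟨fun _ => 0, fun _ => 0, fun x hx y hy hxy => absurd hxy (hne x hx y hy)⟩
    obtain ⟨u, hu, v, hv, w, huv, hcom, htight⟩ := good_edge G A hs (mac_tri G A hm) hne
    have hs' := con_sparse G A hu hv huv hs htight
    have hm' := mac_con G A hu hv huv hm
    have hcard : (A.erase v).card ≤ n := by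
      rw [Finset.card_erase_of_mem hv]
      omega
    -- the switch at `v`
    let s : ZMod 2 := if w ∈ A ∧ G.Adj u w ∧ G.Adj v w then o u w + o v w else 0
    -- the orientation of the contracted graph
    let o' : V → V → ZMod 2 := fun x y =>
      if x = u ∧ ¬ G.Adj u y then o v y + s
      else if y = u ∧ ¬ G.Adj u x then o x v + s
      else o x y
    have ho' : Ori o' := by
      intro x y hxy
      by_cases hx : x = u
      · subst hx
        by_cases h1 : G.Adj x y
        · have e1 : o' x y = o x y := by simp [o', h1, hxy.symm]
          have e2 : o' y x = o y x := by simp [o', h1, hxy.symm]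
          rw [e1, e2]
          exact ho x y hxy
        · have hyv : v ≠ y := fun h => h1 (h ▸ huv)
          have e1 : o' x y = o v y + s := by simp [o', h1]
          have e2 : o' y x = o y v + s := by simp [o', h1, hxy.symm]
          rw [e1, e2, add_add_add_comm, ho v y hyv, CharTwo.add_self_eq_zero, add_zero]
      · by_cases hy : y = u
        · subst hy
          by_cases h1 : G.Adj y x
          · have e1 : o' x y = o x y := by simp [o', h1, hx]
            have e2 : o' y x = o y x := by simp [o', h1, hx]
            rw [e1, e2]
            exact ho x y hxy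
          · have hxv : x ≠ v := fun h => h1 (h ▸ huv)
            have e1 : o' x y = o x v + s := by simp [o', h1, hx]
            have e2 : o' y x = o v x + s := by simp [o', h1]
            rw [e1, e2, add_add_add_comm, ho x v hxv, CharTwo.add_self_eq_zero, add_zero]
        · have e1 : o' x y = o x y := by simp [o', hx, hy]
          have e2 : o' y x = o y x := by simp [o', hx, hy]
          rw [e1, e2]
          exact ho x y hxy
    obtain ⟨X', r', hr'⟩ := ih (con G u v) (A.erase v) hcard hs' hm' o' ho'
    have huA : u ∈ A.erase v := mem_erase.2 ⟨huv.ne, hu⟩
    -- edges at `v`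
    have key : ∀ x ∈ A, x ≠ u → G.Adj v x → x ∈ A.erase v ∧ (con G u v).Adj u x ∧
        o' u x = o v x + s := by
      intro x hx hxu hvx
      refine ⟨mem_erase.2 ⟨hvx.ne', hx⟩, ⟨hxu.symm, v, x, hvx, by simp [mv], ?_⟩, ?_⟩
      · simp [mv, hvx.ne']
      · by_cases h1 : G.Adj u x
        · have hxw : x = w := hcom x hx h1 hvx
          subst hxw
          have e1 : o' u x = o u x := by simp [o', h1, hxu]
          have e2 : s = o u x + o v x := by simp [s, h1, hvx, hx]
          rw [e1, e2, add_comm (o u x), ← add_assoc, CharTwo.add_self_eq_zero, zero_add]
        · simp [o', h1]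
    have key2 : ∀ x ∈ A, x ≠ u → G.Adj v x → o' x u = o x v + s := by
      intro x hx hxu hvx
      obtain ⟨-, -, h3⟩ := key x hx hxu hvx
      have h4 := ho' u x hxu.symm
      have h5 := ho v x hvx.ne
      rw [h3] at h4
      have h6 : s + s = 0 := CharTwo.add_self_eq_zero _
      linear_combination h4 - h5 - h6
    refine ⟨fun x => if x = v then X' u + s else X' x,
      fun x => if x = v then (if o u v + s = 1 then 2 * r' u + 2 else 2 * r' u) else 2 * r' x + 1,
      ?_⟩
    intro x hx y hy hxy hone
    by_cases hxv : x = v
    · subst hxv
      by_cases hyu : y = u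
      · subst hyu
        have h1 : o y x + s ≠ 1 := by
          intro h2
          simp only [if_true, if_neg hxy.ne'] at hone
          have h3 := ho y x hxy.ne'
          have h4 : o x y + s = 1 := by
            rw [← hone]
            have h5 : X' y + X' y = 0 := CharTwo.add_self_eq_zero _
            linear_combination -h5
          have h5 : s + s = 0 := CharTwo.add_self_eq_zero _
          have h6 : (1 : ZMod 2) = 0 := by linear_combination -(h2 + h4 - h3 - h5)
          exact absurd h6 (by decide)
        simp only [if_true, if_neg hxy.ne', if_neg h1]
        omega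
      · obtain ⟨h1, h2, h3⟩ := key y hy hyu hxy
        simp only [if_true, if_neg hxy.ne'] at hone
        have h4 := hr' u huA y h1 h2 (by
          rw [h3]
          linear_combination hone)
        simp only [if_true, if_neg hxy.ne']
        split_ifs <;> omega
    · by_cases hyv : y = v
      · subst hyv
        by_cases hxu : x = u
        · subst hxu
          simp only [if_true, if_neg hxv] at hone
          have h4 : o x y + s = 1 := by
            rw [← hone]
            have h5 : X' x + X' x = 0 := CharTwo.add_self_eq_zero _
            linear_combination -h5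
          simp only [if_true, if_neg hxv, if_pos h4]
          omega
        · obtain ⟨h1, h2, h3⟩ := key x hx hxu hxy.symm
          simp only [if_true, if_neg hxv] at hone
          have h4 := hr' x h1 u huA h2.symm (by
            rw [key2 x hx hxu hxy.symm]
            linear_combination hone)
          simp only [if_true, if_neg hxv]
          split_ifs <;> omega
      · simp only [if_neg hxv, if_neg hyv] at hone ⊢
        have h1 : (con G u v).Adj x y := by
          refine ⟨hxy.ne, x, y, hxy, ?_, ?_⟩
          · simp [mv, hxv]
          · simp [mv, hyv]
        have h2 : o' x y = o x y := by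
          by_cases hxu : x = u
          · subst hxu
            simp [o', hxy, hxy.ne']
          · by_cases hyu : y = u
            · subst hyu
              simp [o', hxy.symm, hxy.ne]
            · simp [o', hxu, hyu]
        have h3 := hr' x (mem_erase.2 ⟨hxv, hx⟩) y (mem_erase.2 ⟨hyv, hy⟩) h1 (by rw [h2]; exact hone)
        omega

end

end Pool.Agent.H17.TF
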