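import Pool.Agent.H17.TF.ConSp

set_option autoImplicit false

/-!
Every planar tight graph has an edge in exactly one triangle whose contraction keeps sparseness.
-/

namespace Pool.Agent.H17.TF

open Finset

section
variable {V : Type} [Fintype V]

open Classical in
/-- union and intersection of tight sets with at least two common vertices -/
theorem tight_union {G : SimpleGraph V} {A S T : Finset V} (hs : SparseOn G A) (hSA : S ⊆ A)
    (hTA : T ⊆ A) (hS : Tight G S) (hT : Tight G T) (h2 : 2 ≤ (S ∩ T).card) :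
    Tight G (S ∪ T) ∧ (3 ≤ (S ∩ T).card → Tight G (S ∩ T)) ∧
      ∀ x y, x ∈ S → x ∉ T → y ∈ T → y ∉ S → ¬ G.Adj x y := by
  have h1 := Finset.card_union_add_card_inter (ed G S) (ed G T)
  have h3 := Finset.card_union_add_card_inter S T
  have hsub : ed G S ∪ ed G T ⊆ ed G (S ∪ T) := by
    intro e
    induction e using Sym2.ind with
    | _ x y =>
      intro he
      rw [mem_union, mem_ed, mem_ed] at he
      rw [mem_ed, mem_union, mem_union]
      rcases he with ⟨h, h', h''⟩ | ⟨h, h', h''⟩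
      · exact ⟨h, Or.inl h', Or.inl h''⟩
      · exact ⟨h, Or.inr h', Or.inr h''⟩
  have hint : ed G S ∩ ed G T = ed G (S ∩ T) := by
    ext e
    induction e using Sym2.ind with
    | _ x y =>
      rw [mem_inter, mem_ed, mem_ed, mem_ed, mem_inter, mem_inter]
      tauto
  have h4 := Finset.card_le_card hsub
  rw [hint] at h1
  have h5 := hs (S ∪ T) (union_subset hSA hTA) (by
    have := Finset.card_le_card (Finset.subset_union_left (s₁ := S) (s₂ := T))
    have := hS.1
    omega)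
  have h6 := hs (S ∩ T) (inter_subset_left.trans hSA) h2
  have h7 := hS.2
  have h8 := hT.2
  have h9 := hS.1
  have h10 := Finset.card_le_card (Finset.subset_union_left (s₁ := S) (s₂ := T))
  refine ⟨⟨by omega, by omega⟩, fun h => ⟨h, by omega⟩, ?_⟩
  have heq : ed G S ∪ ed G T = ed G (S ∪ T) := Finset.eq_of_subset_of_card_le hsub (by omega)
  intro x y hx hx' hy hy' hadj
  have : s(x, y) ∈ ed G (S ∪ T) := mem_ed.2 ⟨hadj, mem_union_left _ hx, mem_union_right _ hy⟩
  rw [← heq, mem_union, mem_ed, mem_ed] at this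
  rcases this with ⟨-, -, h⟩ | ⟨-, h, -⟩
  · exact hy' h
  · exact hx' h

theorem two_le_inter [DecidableEq V] {S T : Finset V} {x y : V} (hxy : x ≠ y) (hxS : x ∈ S) (hyS : y ∈ S)
    (hxT : x ∈ T) (hyT : y ∈ T) : 2 ≤ (S ∩ T).card := by
  have h : ({x, y} : Finset V) ⊆ S ∩ T := by
    intro z hz
    rw [mem_insert, mem_singleton] at hz
    rcases hz with rfl | rfl
    · exact mem_inter.2 ⟨hxS, hxT⟩
    · exact mem_inter.2 ⟨hyS, hyT⟩
  have := Finset.card_le_card h
  rwa [Finset.card_pair hxy] at this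

/-- `b c` is an edge of the triangle `a b c` of `M` which is not blocked in `M` -/
def Free (G : SimpleGraph V) (M : Finset V) (a b c : V) : Prop :=
  a ∈ M ∧ b ∈ M ∧ c ∈ M ∧ G.Adj a b ∧ G.Adj b c ∧ G.Adj a c ∧
    ∀ N ⊆ M, Tight G N → b ∈ N → c ∈ N → a ∈ N

open Classical in
/-- a maximal tight set with given vertices in it and one given vertex outside -/
theorem exists_max {G : SimpleGraph V} {B N : Finset V} {a b c : V} (hNB : N ⊆ B)
    (hN : Tight G N) (hb : b ∈ N) (hc : c ∈ N) (ha : a ∉ N) :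
    ∃ M ⊆ B, Tight G M ∧ b ∈ M ∧ c ∈ M ∧ a ∉ M ∧
      ∀ M' ⊆ B, Tight G M' → M ⊆ M' → a ∉ M' → M' ⊆ M := by
  have hfin : (B.powerset.filter (fun M => Tight G M ∧ b ∈ M ∧ c ∈ M ∧ a ∉ M)).Nonempty :=
    ⟨N, mem_filter.2 ⟨mem_powerset.2 hNB, hN, hb, hc, ha⟩⟩
  obtain ⟨M, hM, hmax⟩ := Finset.exists_max_image _ (fun M : Finset V => M.card) hfin
  rw [mem_filter, mem_powerset] at hM
  refine ⟨M, hM.1, hM.2.1, hM.2.2.1, hM.2.2.2.1, hM.2.2.2.2, ?_⟩
  intro M' hM'B hM' hsub haM'
  have h := hmax M' (mem_filter.2 ⟨mem_powerset.2 hM'B, hM', hsub hM.2.2.1, hsub hM.2.2.2.1, haM'⟩)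
  exact (Finset.eq_of_subset_of_card_le hsub h).symm.subset

open Classical in
/-- the main step: a free edge of a maximal blocking set is free -/
theorem star_step {G : SimpleGraph V} {A B M : Finset V} {a b c a' b' c' : V}
    (hs : SparseOn G A) (hBA : B ⊆ A) (hMB : M ⊆ B) (hM : Tight G M) (hbM : b ∈ M) (hcM : c ∈ M)
    (haM : a ∉ M) (hab : G.Adj a b) (hac : G.Adj a c) (hbc : G.Adj b c)
    (hmax : ∀ M' ⊆ B, Tight G M' → M ⊆ M' → a ∉ M' → M' ⊆ M)
    (hfree : Free G M a' b' c') (hne : s(b', c') ≠ s(b, c)) : Free G B a' b' c' := by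
  obtain ⟨h1, h2, h3, h4, h5, h6, h7⟩ := hfree
  refine ⟨hMB h1, hMB h2, hMB h3, h4, h5, h6, ?_⟩
  intro N hNB hN hb' hc'
  by_contra ha'
  have hint : 2 ≤ (N ∩ M).card := two_le_inter h5.ne hb' hc' h2 h3
  obtain ⟨hU, hI, hE⟩ := tight_union hs (hNB.trans hBA) (hMB.trans hBA) hN hM hint
  by_cases h8 : 3 ≤ (N ∩ M).card
  · exact ha' (mem_inter.1 (h7 (N ∩ M) inter_subset_right (hI h8)
      (mem_inter.2 ⟨hb', h2⟩) (mem_inter.2 ⟨hc', h3⟩))).1
  · have h9 : (N ∩ M).card = 2 := by omega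
    have h10 : ({b', c'} : Finset V) = N ∩ M := by
      apply Finset.eq_of_subset_of_card_le
      · intro z hz
        rw [mem_insert, mem_singleton] at hz
        rcases hz with rfl | rfl
        · exact mem_inter.2 ⟨hb', h2⟩
        · exact mem_inter.2 ⟨hc', h3⟩
      · rw [h9, Finset.card_pair h5.ne]
    have haU : a ∈ N ∪ M := by
      by_contra h11
      have h12 := hmax (N ∪ M) (union_subset hNB hMB) hU subset_union_right h11
      have h13 : N ⊆ N ∩ M := fun x hx => mem_inter.2 ⟨hx, h12 (mem_union_left _ hx)⟩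
      have := Finset.card_le_card h13
      have := hN.1
      omega
    have haN : a ∈ N := by
      rcases mem_union.1 haU with h | h
      · exact h
      · exact absurd h haM
    have hbN : b ∈ N := by
      by_contra h
      exact hE a b haN haM hbM h hab
    have hcN : c ∈ N := by
      by_contra h
      exact hE a c haN haM hcM h hac
    have hb2 : b ∈ ({b', c'} : Finset V) := by rw [h10]; exact mem_inter.2 ⟨hbN, hbM⟩
    have hc2 : c ∈ ({b', c'} : Finset V) := by rw [h10]; exact mem_inter.2 ⟨hcN, hcM⟩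
    rw [mem_insert, mem_singleton] at hb2 hc2
    apply hne
    rw [Sym2.eq_iff]
    rcases hb2 with rfl | rfl
    · rcases hc2 with rfl | rfl
      · exact absurd rfl hbc.ne
      · exact Or.inl ⟨rfl, rfl⟩
    · rcases hc2 with rfl | rfl
      · exact Or.inr ⟨rfl, rfl⟩
      · exact absurd rfl hbc.ne

open Classical in
/-- Lemma (star): a tight set with a root edge has a free edge different from the root. -/
theorem star (G : SimpleGraph V) (A : Finset V) (hs : SparseOn G A) (ht : TriSparse G A) :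
    ∀ (n : ℕ) (B : Finset V), B.card ≤ n → B ⊆ A → Tight G B → ∀ r1 ∈ B, ∀ r2 ∈ B, G.Adj r1 r2 →
      ∃ a b c, Free G B a b c ∧ s(b, c) ≠ s(r1, r2) := by
  intro n
  induction n with
  | zero =>
    intro B hB _ hT
    have := hT.1
    omega
  | succ n ih =>
    intro B hB hBA hT r1 hr1 r2 hr2 hr
    -- a triangle
    obtain ⟨x, hx, y, hy, z, hz, hxy, hyz, hxz⟩ : ∃ x ∈ B, ∃ y ∈ B, ∃ z ∈ B,
        G.Adj x y ∧ G.Adj y z ∧ G.Adj x z := by
      by_contra hcon
      push Not at hcon
      have := ht B hBA hT.1 (fun a ha b hb c hc h1 h2 => hcon a ha b hb c hc h1 h2)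
      have := hT.2
      omega
    -- the step for a blocked edge whose maximal blocking set does not contain the root
    have step : ∀ a b c, a ∈ B → b ∈ B → c ∈ B → G.Adj a b → G.Adj b c → G.Adj a c →
        ∀ M ⊆ B, Tight G M → b ∈ M → c ∈ M → a ∉ M →
        (∀ M' ⊆ B, Tight G M' → M ⊆ M' → a ∉ M' → M' ⊆ M) → ¬ (r1 ∈ M ∧ r2 ∈ M) →
        ∃ a b c, Free G B a b c ∧ s(b, c) ≠ s(r1, r2) := by
      intro a b c ha hb hc hab hbc hac M hMB hM hbM hcM haM hmax hroot
      have hlt : M.card < B.card := by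
        apply Finset.card_lt_card
        exact ⟨hMB, fun h => haM (h ha)⟩
      obtain ⟨a', b', c', hf, hne⟩ := ih M (by omega) (hMB.trans hBA) hM b hbM c hcM hbc
      refine ⟨a', b', c', star_step hs hBA hMB hM hbM hcM haM hab hac hbc hmax hf hne, ?_⟩
      intro h
      apply hroot
      rcases Sym2.eq_iff.1 h with ⟨h1, h2⟩ | ⟨h1, h2⟩
      · exact ⟨h1 ▸ hf.2.1, h2 ▸ hf.2.2.1⟩
      · exact ⟨h2 ▸ hf.2.2.1, h1 ▸ hf.2.1⟩
    -- an edge of the triangle is free, equal to the root, or has a maximal blocking set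
    have alt : ∀ a b c, a ∈ B → b ∈ B → c ∈ B → G.Adj a b → G.Adj b c → G.Adj a c →
        s(b, c) ≠ s(r1, r2) → (∃ a b c, Free G B a b c ∧ s(b, c) ≠ s(r1, r2)) ∨
        ∃ M ⊆ B, Tight G M ∧ b ∈ M ∧ c ∈ M ∧ a ∉ M ∧
          (∀ M' ⊆ B, Tight G M' → M ⊆ M' → a ∉ M' → M' ⊆ M) := by
      intro a b c ha hb hc hab hbc hac hne
      by_cases h : ∀ N ⊆ B, Tight G N → b ∈ N → c ∈ N → a ∈ N
      · exact Or.inl ⟨a, b, c, ⟨ha, hb, hc, hab, hbc, hac, h⟩, hne⟩
      · push Not at h
        obtain ⟨N, hNB, hN, hbN, hcN, haN⟩ := h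
        exact Or.inr (exists_max hNB hN hbN hcN haN)
    -- the root is an edge of the triangle
    have rootcase : ∀ p q t, p ∈ B → q ∈ B → t ∈ B → G.Adj p q → G.Adj q t → G.Adj p t →
        s(p, q) = s(r1, r2) → ∃ a b c, Free G B a b c ∧ s(b, c) ≠ s(r1, r2) := by
      intro p q t hp hq ht' hpq hqt hpt hroot
      have hne : s(p, t) ≠ s(r1, r2) := by
        rw [← hroot]
        intro h
        rcases Sym2.eq_iff.1 h with ⟨-, h2⟩ | ⟨h1, h2⟩
        · exact hqt.ne h2.symm
        · exact hpq.ne h1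
      rcases alt q p t hq hp ht' hpq.symm hpt hqt hne with h | ⟨M, hMB, hM, hpM, htM, hqM, hmax⟩
      · exact h
      · refine step q p t hq hp ht' hpq.symm hpt hqt M hMB hM hpM htM hqM hmax ?_
        rintro ⟨h1, h2⟩
        rcases Sym2.eq_iff.1 hroot with ⟨-, h4⟩ | ⟨-, h4⟩
        · exact hqM (h4 ▸ h2)
        · exact hqM (h4 ▸ h1)
    by_cases h1 : s(x, y) = s(r1, r2)
    · exact rootcase x y z hx hy hz hxy hyz hxz h1
    by_cases h2 : s(y, z) = s(r1, r2)
    · exact rootcase y z x hy hz hx hyz hxz.symm hxy.symm h2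
    -- edges xy and yz
    rcases alt z x y hz hx hy hxz.symm hxy hyz.symm h1 with h | ⟨M, hMB, hM, hxM, hyM, hzM, hmax⟩
    · exact h
    rcases alt x y z hx hy hz hxy hyz hxz h2 with h | ⟨M', hMB', hM', hyM', hzM', hxM', hmax'⟩
    · exact h
    by_cases h3 : r1 ∈ M ∧ r2 ∈ M
    · refine step x y z hx hy hz hxy hyz hxz M' hMB' hM' hyM' hzM' hxM' hmax' ?_
      rintro ⟨h4, h5⟩
      obtain ⟨-, -, hE⟩ := tight_union hs (hMB.trans hBA) (hMB'.trans hBA) hM hM'
        (two_le_inter hr.ne h3.1 h3.2 h4 h5)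
      exact hE x z hxM hxM' hzM' hzM hxz
    · exact step z x y hz hx hy hxz.symm hxy hyz.symm M hMB hM hxM hyM hzM hmax h3

open Classical in
/-- an edge which can be contracted -/
theorem good_edge (G : SimpleGraph V) (A : Finset V) (hs : SparseOn G A) (ht : TriSparse G A)
    (hne : ∃ x ∈ A, ∃ y ∈ A, G.Adj x y) :
    ∃ u ∈ A, ∃ v ∈ A, ∃ w, G.Adj u v ∧ (∀ w' ∈ A, G.Adj u w' → G.Adj v w' → w' = w) ∧
      ∀ S ⊆ A, Tight G S → u ∈ S → v ∈ S → w ∈ S ∧ G.Adj u w ∧ G.Adj v w := by
  -- a triangle is tight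
  have tri : ∀ u v w, u ∈ A → v ∈ A → w ∈ A → G.Adj u v → G.Adj u w → G.Adj v w →
      Tight G {u, v, w} := by
    intro u v w hu hv hw huv huw hvw
    have h1 : ({u, v, w} : Finset V).card = 3 :=
      Finset.card_eq_three.2 ⟨u, v, w, huv.ne, huw.ne, hvw.ne, rfl⟩
    have hsub : ({u, v, w} : Finset V) ⊆ A := by
      intro z hz
      simp only [mem_insert, mem_singleton] at hz
      rcases hz with rfl | rfl | rfl <;> assumption
    have h2 := hs _ hsub (by omega)
    have h3 : ({s(u, v), s(u, w), s(v, w)} : Finset (Sym2 V)) ⊆ ed G {u, v, w} := by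
      intro e he
      simp only [mem_insert, mem_singleton] at he
      rcases he with rfl | rfl | rfl
      · exact mem_ed.2 ⟨huv, by simp, by simp⟩
      · exact mem_ed.2 ⟨huw, by simp, by simp⟩
      · exact mem_ed.2 ⟨hvw, by simp, by simp⟩
    have h4 : ({s(u, v), s(u, w), s(v, w)} : Finset (Sym2 V)).card = 3 := by
      refine Finset.card_eq_three.2 ⟨_, _, _, ?_, ?_, ?_, rfl⟩
      · intro h
        rcases Sym2.eq_iff.1 h with ⟨-, h⟩ | ⟨h, -⟩
        · exact hvw.ne h
        · exact huw.ne h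
      · intro h
        rcases Sym2.eq_iff.1 h with ⟨h, -⟩ | ⟨h, -⟩
        · exact huv.ne h
        · exact huw.ne h
      · intro h
        rcases Sym2.eq_iff.1 h with ⟨h, -⟩ | ⟨h, h'⟩
        · exact huv.ne h
        · exact huw.ne h
    have h5 := Finset.card_le_card h3
    exact ⟨by omega, by omega⟩
  by_cases hT : ∃ B ⊆ A, Tight G B
  · obtain ⟨B0, hB0A, hB0⟩ := hT
    have hfin : (A.powerset.filter (fun M => Tight G M)).Nonempty :=
      ⟨B0, mem_filter.2 ⟨mem_powerset.2 hB0A, hB0⟩⟩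
    obtain ⟨B, hB, hmax⟩ := Finset.exists_max_image _ (fun M : Finset V => M.card) hfin
    rw [mem_filter, mem_powerset] at hB
    obtain ⟨hBA, hBT⟩ := hB
    have hed : (ed G B).Nonempty := by
      rw [← Finset.card_pos]
      have := hBT.1
      have := hBT.2
      omega
    obtain ⟨e, he⟩ := hed
    obtain ⟨r1, r2, hr⟩ : ∃ r1 r2, e = s(r1, r2) := by
      induction e using Sym2.ind with
      | _ a b => exact ⟨a, b, rfl⟩
    rw [hr, mem_ed] at he
    obtain ⟨a, b, c, hf, -⟩ := star G A hs ht B.card B le_rfl hBA hBT r1 he.2.1 r2 he.2.2 he.1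
    obtain ⟨ha, hb, hc, hab, hbc, hac, hfree⟩ := hf
    have hfreeA : ∀ S ⊆ A, Tight G S → b ∈ S → c ∈ S → a ∈ S := by
      intro S hSA hS hbS hcS
      obtain ⟨hU, -, -⟩ := tight_union hs hBA hSA hBT hS (two_le_inter hbc.ne hb hc hbS hcS)
      have h1 := hmax (B ∪ S) (mem_filter.2 ⟨mem_powerset.2 (union_subset hBA hSA), hU⟩)
      have h2 := Finset.eq_of_subset_of_card_le (subset_union_left (s₁ := B) (s₂ := S)) h1
      have h3 : S ⊆ B := by
        rw [h2]
        exact subset_union_right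
      exact hfree S h3 hS hbS hcS
    refine ⟨b, hBA hb, c, hBA hc, a, hbc, ?_, ?_⟩
    · intro w' hw' h1 h2
      have h3 := hfreeA {b, c, w'} (by
        intro z hz
        simp only [mem_insert, mem_singleton] at hz
        rcases hz with rfl | rfl | rfl
        · exact hBA hb
        · exact hBA hc
        · exact hw') (tri b c w' (hBA hb) (hBA hc) hw' hbc h1 h2) (by simp) (by simp)
      simp only [mem_insert, mem_singleton] at h3
      rcases h3 with h3 | h3 | h3
      · exact absurd h3 hab.ne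
      · exact absurd h3 hac.ne
      · exact h3.symm
    · intro S hSA hS hbS hcS
      exact ⟨hfreeA S hSA hS hbS hcS, hab.symm, hac.symm⟩
  · push Not at hT
    obtain ⟨x, hx, y, hy, hxy⟩ := hne
    refine ⟨x, hx, y, hy, x, hxy, ?_, ?_⟩
    · intro w' hw' h1 h2
      exact absurd (tri x y w' hx hy hw' hxy h1 h2) (hT _ (by
        intro z hz
        simp only [mem_insert, mem_singleton] at hz
        rcases hz with rfl | rfl | rfl
        · exact hx
        · exact hy
        · exact hw'))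
    · intro S hSA hS
      exact absurd hS (hT S hSA)

end

end Pool.Agent.H17.TF
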